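import Pool.Agent.H36.T4.Fre
import Pool.Agent.H64.D1.CS

/-!
# Free velocities of two alive places

`nn_fq2`: a number of the velocities of two places on one event. `freD_of`: the velocities of two
places are free given the record of an earlier window and the far path.
-/

set_option autoImplicit false

namespace Pool.D124

open Finset Real MvPolynomial
open Pool.Agent.H49.Ent Pool.Agent.H32.Dense
open Pool.STK hiding pr2
open Pool.KA Pool.KSAT Pool.K2S Pool.PB Pool.S6C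
open Pool.GEN Pool.CHT Pool.LA91 Pool.RCD Pool.V0F Pool.AVG57
open Pool.PRC54 (yQ)
open Pool.FVL91 (qVel cfl cfl_eq)
open Pool.T4G (wD wN wG)
open Pool.T4E (vC)
open Pool.T4M (CH_vec ful_step)
open Pool.T4N
open Pool.D164 (NumD FreDStmt wF pF)

variable {m J : ℕ}

/-! ### The velocities in several units -/

/-- The velocities of the first two places in the units `α`. -/
noncomputable def fq2 (F : Fam m J) (c : ℕ → Fin m) (w : Fin 3 → ℕ) (Fr : Frm F) (α : Fin 2 → ℝ)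
    (ω : F.Ω) (i : Fin 2) : ℤ := ⌊α i * fV F c w Fr ω i.castSucc⌋

/-- The velocities as in `qVel`. -/
noncomputable def vJ2 (F : Fam m J) (c : ℕ → Fin m) (w : Fin 3 → ℕ) (Fr : Frm F) (nd : ℕ → ℝ)
    (ω : F.Ω) (l : ℕ) : ℤ := if h : l < 2 then cfl 1 J (nd l) (fV F c w Fr ω ⟨l, by omega⟩) else 0

section det

variable {F : Fam m J} {c : ℕ → Fin m} {w P : Fin 3 → ℕ} {B : F.Ω → Prop} {Fr : Frm F} {a : ℕ}

theorem vJ2_q {bl pl nd : ℕ → ℝ} {e₀ : ℝ} {K : ℕ}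
    (h : FrmP F c (wF bl J) (pF pl e₀ J) B Fr) :
    (qVel m c 1 2 1 bl pl nd).P K e₀ J F B (vJ2 F c (wF bl J) Fr nd) := by
  refine ⟨fun l hl => ⟨Fr.V ⟨l, by omega⟩, Fr.z ⟨l, by omega⟩, Fr.z' ⟨l, by omega⟩,
    Fr.G ⟨l, by omega⟩, h.lab ⟨l, by omega⟩, fun ω _ => ?_⟩, fun ω _ l hl => ?_⟩
  · show vJ2 F c (wF bl J) Fr nd ω l = _
    unfold vJ2
    rw [dif_pos hl]
    rfl
  · unfold vJ2
    rw [dif_neg hl]

theorem vJ2_eq (h : FrmP F c w P B Fr) (nd : ℕ → ℝ) {ω : F.Ω} (hω : B ω) (i : Fin 2) :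
    vJ2 F c w Fr nd ω i = fq2 F c w Fr (fun i => (2 : ℝ) ^ (nd i * J)) ω i := by
  unfold vJ2 fq2
  rw [dif_pos i.2]
  refine cfl_eq ?_
  have h1 := h.cut ω hω i.castSucc
  refine h1.trans (le_of_eq ?_)
  have e1 : (((1 : ℕ) : ℝ) + 1) * J = ((2 * J : ℕ) : ℝ) := by
    push_cast
    ring
  rw [e1, Real.rpow_natCast]

theorem wD_fq2 (h : FrmP F c w P B Fr) (hw : ∀ i, w i ≤ a) (ha : a ≤ J) (g : Fin 2 → ℕ)
    (ω : F.Ω) : wD (fun s k => fVs c w Fr a s (Fin.castSucc k)) a g (slam F a ω) =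
      fq2 F c w Fr (fun i => (2 : ℝ) ^ g i / 2 ^ a) ω := by
  funext i
  show ⌊(2 : ℝ) ^ g i / 2 ^ a * fVs c w Fr a (slam F a ω) i.castSucc⌋ =
    ⌊(2 : ℝ) ^ g i / 2 ^ a * fV F c w Fr ω i.castSucc⌋
  rw [fV_eq h hw ha]

theorem fq2_div (α : Fin 2 → ℝ) (q : ℕ) (ω : F.Ω) (i : Fin 2) :
    fq2 F c w Fr α ω i / 2 ^ q = fq2 F c w Fr (fun i => α i / 2 ^ q) ω i := by
  unfold fq2
  have h1 : α i / 2 ^ q * fV F c w Fr ω i.castSucc =
      α i * fV F c w Fr ω i.castSucc / ((2 ^ q : ℕ) : ℝ) := by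
    push_cast
    ring
  rw [h1, Int.floor_div_natCast]
  push_cast
  rfl

theorem wN_fq2 (h : FrmP F c w P B Fr) (hw : ∀ i, w i ≤ a) (ha : a ≤ J) (g : Fin 2 → ℕ) (q : ℕ)
    (ω : F.Ω) : wN (fun s k => fVs c w Fr a s (Fin.castSucc k)) a g q (slam F a ω) =
      fq2 F c w Fr (fun i => (2 : ℝ) ^ g i / 2 ^ a / 2 ^ q) ω := by
  funext i
  unfold wN
  rw [wD_fq2 h hw ha, fq2_div]

/-- **The velocities in two units.** -/
theorem fq2_fq {p : F.Ω → ℝ} (hp : IsLaw p) {α β : Fin 2 → ℝ} {M : ℕ} (ha : ∀ i, 0 < α i)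
    (hb : ∀ i, 0 ≤ β i) (hab : ∀ i, β i ≤ M * α i) :
    CH p (fq2 F c w Fr β) (fq2 F c w Fr α) ≤ (2 : ℕ) * Real.log (2 * (M + 2 : ℕ) + 1) :=
  fl_fine hp (fun ω (i : Fin 2) => fV F c w Fr ω i.castSucc) α β ha hb hab

end det

/-! ### One number on one event -/

section cls

variable {S : PCl m} {c : ℕ → Fin m} {sn : ℕ → ℝ → ℝ} {bl pl : ℕ → ℝ}

/-- **A number of the velocities of two places** for the frame and the canonical record. -/
theorem nn_fq2 (hpos : ∀ (τ : ℝ) (J : ℕ) (F : Fam m J) (A : F.Ω → Prop), S.St τ J F A → 0 < Pe F.p A)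
    {x P₀ lam θ : ℝ} {nd : ℕ → ℝ}
    (hN : NN S (fun J F => ptr F J) (vg x) (yQ ((range 1).image c) P₀ lam)
      (qVel m c 1 2 1 bl pl nd) θ) {h : ℝ} (hh : 0 < h) :
    ∃ e₀ : ℝ, 0 < e₀ ∧ ∀ e ≤ e₀, Bas S (fun J F B => ∀ Fr : Frm F,
      FrmP F c (wF bl J) (pF pl e J) B Fr →
      |CH (Pool.Agent.H49.Ent.cond F.p B True)
        (fq2 F c (wF bl J) Fr (fun i => (2 : ℝ) ^ (nd i * J)))
        (fun ω => (cR F B x ω, yQ ((range 1).image c) P₀ lam J F ω)) - θ * J| ≤ h * J) := by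
  obtain ⟨k, hk, e₀, he₀, h1⟩ := hN h hh
  refine ⟨e₀, he₀, fun e he => ?_⟩
  have hp : Bas S (fun _ F A => 0 < Pe F.p A) := ⟨1, one_pos, 0, fun J _ F A hA => hpos 1 J F A hA⟩
  refine Bas.mono 0 ((h1 0).and hp) ?_
  rintro J _ F B ⟨h2, hB⟩ Fr hFr
  have h3 := h2 _ (cR F B x) (mx_cR hB x hk.le) (vJ2 F c (wF bl J) Fr nd)
    ((qVel m c 1 2 1 bl pl nd).mono (Nat.zero_le 0) he (vJ2_q hFr))
  have hc := (isLaw_cond F.isLaw hB).nonneg
  have hBp : ∀ ω, 0 < Pool.Agent.H49.Ent.cond F.p B True ω → B ω := fun ω hω =>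
    of_eq_true ((cond_pos_iff F.isLaw.nonneg B True ω).1 hω).2
  have h4 : CH (Pool.Agent.H49.Ent.cond F.p B True)
      (fq2 F c (wF bl J) Fr (fun i => (2 : ℝ) ^ (nd i * J)))
      (fun ω => (cR F B x ω, yQ ((range 1).image c) P₀ lam J F ω)) =
      CH (Pool.Agent.H49.Ent.cond F.p B True) (vJ2 F c (wF bl J) Fr nd)
      (fun ω => (cR F B x ω, yQ ((range 1).image c) P₀ lam J F ω)) := by
    refine le_antisymm (CH_mono_left hc fun ω ω' a b e => ?_)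
      (CH_mono_left hc fun ω ω' a b e => ?_)
    · have e1 := (Prod.ext_iff.mp e).1
      funext i
      rw [← vJ2_eq hFr nd (hBp ω a) i, ← vJ2_eq hFr nd (hBp ω' b) i]
      exact congrFun e1 i
    · have e1 := (Prod.ext_iff.mp e).1
      funext l
      by_cases hl : l < 2
      · exact (vJ2_eq hFr nd (hBp ω a) ⟨l, hl⟩).trans ((congrFun e1 ⟨l, hl⟩).trans
          (vJ2_eq hFr nd (hBp ω' b) ⟨l, hl⟩).symm)
      · unfold vJ2
        rw [dif_neg hl, dif_neg hl]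
  rw [h4]
  exact h3

end cls

/-- **The velocities of the alive places are free**, from the numbers of three windows. -/
theorem freD_of : FreDStmt := by
  classical
  intro m S c sn bl pl hpos hT P₀ lam σ C κ L x N hN i j l hij hjl hlL hbl hx hx1 μ η Kc hμ hη hK
  have hh : 0 < η / 16 := by positivity
  obtain ⟨e₁, he₁, n1⟩ := nn_fq2 hpos (hN.ev i l (hij.trans hjl) hlL) hh
  obtain ⟨e₂, he₂, n2⟩ := nn_fq2 hpos (hN.ev i j hij (hjl.trans hlL)) hh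
  obtain ⟨e₃, he₃, n3⟩ := nn_fq2 hpos (hN.ev j l hjl hlL) hh
  obtain ⟨e₄, he₄, n4⟩ := nn_fq2 hpos (hN.ev j j le_rfl (hjl.trans hlL)) hh
  refine ⟨min (min e₁ e₂) (min e₃ e₄), lt_min (lt_min he₁ he₂) (lt_min he₃ he₄), fun e he => ?_⟩
  have g1 := n1 e (he.trans ((min_le_left _ _).trans (min_le_left _ _)))
  have g2 := n2 e (he.trans ((min_le_left _ _).trans (min_le_right _ _)))
  have g3 := n3 e (he.trans ((min_le_right _ _).trans (min_le_left _ _)))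
  have g4 := n4 e (he.trans ((min_le_right _ _).trans (min_le_right _ _)))
  have hp : Bas S (fun _ F A => 0 < Pe F.p A) := ⟨1, one_pos, 0, fun J _ F A hA => hpos 1 J F A hA⟩
  have l2 : 0 < Real.log 2 := Real.log_pos (by norm_num)
  obtain ⟨CC, hCC⟩ : ∃ CC : ℝ, CC = 2 * (Kc * Real.log 2 + Real.log 9) + 2 * Real.log 15 +
    2 * (Kc * Real.log 2 + Real.log 9) + 2 * (Kc * Real.log 2 + Real.log 9) := ⟨_, rfl⟩
  obtain ⟨J₀, hJ₀⟩ := Pool.CHT.big CC (show 0 < η / 4 by positivity)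
  refine Bas.mono J₀ ((((g1.and g2).and (g3.and g4)).and
    (Pool.NS95.time_cls hT (show 0 < η / 4 by positivity))).and hp) ?_
  rintro J hJ F B ⟨⟨⟨⟨k1, k2⟩, k3, k4⟩, -, -, ktm⟩, hB⟩ Fr hFr g q hP hg1 hg2 hjd
  obtain ⟨a, ha⟩ : ∃ a : ℕ, a = ⌊x i * J⌋₊ := ⟨_, rfl⟩
  obtain ⟨wl, hwl⟩ : ∃ wl : Fin 3 → ℕ, wl = wF bl J := ⟨_, rfl⟩
  obtain ⟨p, hp'⟩ : ∃ p, p = Pool.Agent.H49.Ent.cond F.p B True := ⟨_, rfl⟩
  have hpl : IsLaw p := by
    rw [hp']
    exact isLaw_cond F.isLaw hB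
  have h0 := hpl.nonneg
  have hpB : ∀ ω, 0 < p ω → B ω := fun ω hω => by
    rw [hp'] at hω
    exact of_eq_true ((cond_pos_iff F.isLaw.nonneg B True ω).1 hω).2
  have hJ0 : (0 : ℝ) ≤ J := Nat.cast_nonneg J
  have haJ : a ≤ J := by
    rw [ha]
    refine Nat.floor_le_of_le ?_
    have := mul_le_mul_of_nonneg_right (hx.trans hx1) hJ0
    linarith
  have hwa : ∀ k, wl k ≤ a := fun k => by
    rw [hwl, ha]
    exact Nat.floor_le_floor (mul_le_mul_of_nonneg_right (hbl k k.2) hJ0)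
  have k1' := k1 Fr hFr
  have k2' := k2 Fr hFr
  have k3' := k3 Fr hFr
  have k4' := k4 Fr hFr
  rw [← hwl] at hFr k1' k2' k3' k4' ⊢
  rw [← hp'] at k1' k2' k3' k4' ktm ⊢
  rw [← ha] at hP hg1 hg2 ⊢
  have hD : (fun ω => wD (fun s k => fVs c wl Fr a s (Fin.castSucc k)) a g (slam F a ω)) =
      fq2 F c wl Fr (fun i => (2 : ℝ) ^ g i / 2 ^ a) := funext fun ω => wD_fq2 hFr hwa haJ g ω
  have hcr : ∀ ω, B ω → cR1 F B (x i) (slam F a ω) = cR F B (x i) ω := fun ω hω => by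
    rw [ha]
    exact cR1_eq hω
  obtain ⟨pt1, pt2⟩ := path_two (c := c) hpl haJ hP
  -- the time
  have tm : CH p (fq2 F c wl Fr (fun i => (2 : ℝ) ^ g i / 2 ^ a))
      (fun ω => (wN (fun s k => fVs c wl Fr a s (Fin.castSucc k)) a g q (slam F a ω),
        vC (cYp c ⌊P₀ * J⌋₊ ⌊lam * J⌋₊ a) (cR1 F B (x i)) (slam F a ω))) - η / 4 * J ≤
      CH p (fq2 F c wl Fr (fun i => (2 : ℝ) ^ g i / 2 ^ a))
      (fun ω => (F.T ω, (wN (fun s k => fVs c wl Fr a s (Fin.castSucc k)) a g q (slam F a ω),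
        vC (cYp c ⌊P₀ * J⌋₊ ⌊lam * J⌋₊ a) (cR1 F B (x i)) (slam F a ω)))) := by
    refine ful_step h0 _ F.T _ le_rfl ?_
    have t1 := ktm a haJ _ (fun s => (wN (fun s k => fVs c wl Fr a s (Fin.castSucc k)) a g q s,
      vC (cYp c ⌊P₀ * J⌋₊ ⌊lam * J⌋₊ a) (cR1 F B (x i)) s)) fun ω ω' hω hω' e => by
        have e1 : cR1 F B (x i) (slam F a ω) = cR1 F B (x i) (slam F a ω') :=
          (Prod.ext_iff.mp (Prod.ext_iff.mp e).2).2
        rw [hcr ω (hpB ω hω), hcr ω' (hpB ω' hω')] at e1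
        have e2 := Pool.NS95.cR_zt F B (x i) e1
        rw [← ha] at e2
        exact e2
    have t2 : CH p F.T (fun ω => (wN (fun s k => fVs c wl Fr a s (Fin.castSucc k)) a g q
        (slam F a ω), vC (cYp c ⌊P₀ * J⌋₊ ⌊lam * J⌋₊ a) (cR1 F B (x i)) (slam F a ω))) ≤
        CH p F.W (fun ω => (wN (fun s k => fVs c wl Fr a s (Fin.castSucc k)) a g q (slam F a ω),
        vC (cYp c ⌊P₀ * J⌋₊ ⌊lam * J⌋₊ a) (cR1 F B (x i)) (slam F a ω))) :=
      CH_mono_left h0 fun ω ω' _ _ e => (Prod.ext_iff.mp (Prod.ext_iff.mp e).1).1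
    have t3 : CH p F.W (slam F a) ≤ CH p F.T (slam F a) :=
      CH_mono_left h0 fun ω ω' _ _ e => Prod.ext (Prod.ext_iff.mp e).1
        (Prod.ext_iff.mp (Prod.ext_iff.mp (Prod.ext_iff.mp e).2).2).1
    have t4 : CH p F.T (slam F a) ≤ CH p F.T (fun ω =>
        (fq2 F c wl Fr (fun i => (2 : ℝ) ^ g i / 2 ^ a) ω,
        (wN (fun s k => fVs c wl Fr a s (Fin.castSucc k)) a g q (slam F a ω),
        vC (cYp c ⌊P₀ * J⌋₊ ⌊lam * J⌋₊ a) (cR1 F B (x i)) (slam F a ω)))) :=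
      CH_mono_cond h0 fun ω ω' _ _ e => by
        have e1 : slam F a ω = slam F a ω' := e
        rw [← wD_fq2 hFr hwa haJ g ω, ← wD_fq2 hFr hwa haJ g ω', e1]
    linarith
  -- the numbers
  have c1 : CH p (fq2 F c wl Fr (fun k => (2 : ℝ) ^ (dgV sn σ (x j) k * J)))
      (fq2 F c wl Fr (fun i => (2 : ℝ) ^ g i / 2 ^ a / 2 ^ q)) ≤
      2 * ((μ * J + Kc) * Real.log 2 + Real.log 9) := by
    refine (fq2_fq hpl (M := ⌈(2 : ℝ) ^ (μ * J + Kc)⌉₊) (fun k => by positivity)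
      (fun k => by positivity) fun k => ?_).trans ?_
    · have h1 : (2 : ℝ) ^ (dgV sn σ (x j) k * J) ≤
          2 ^ (μ * J + Kc) * (2 ^ g k / 2 ^ a / 2 ^ q) := by
        have e1 : (2 : ℝ) ^ g k / 2 ^ a / 2 ^ q = 2 ^ ((g k : ℝ) - a - q) := by
          rw [Real.rpow_sub (by norm_num), Real.rpow_sub (by norm_num), Real.rpow_natCast,
            Real.rpow_natCast, Real.rpow_natCast]
        rw [e1, ← Real.rpow_add (by norm_num)]
        refine Real.rpow_le_rpow_of_exponent_le (by norm_num) ?_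
        have := hg1 k
        linarith
      exact h1.trans (mul_le_mul_of_nonneg_right (Nat.le_ceil _) (by positivity))
    · push_cast
      have := log_ceil (show 0 ≤ μ * J + Kc by positivity)
      push_cast at this
      linarith
  have c4 : CH p (fq2 F c wl Fr (fun i => (2 : ℝ) ^ g i / 2 ^ a))
      (fq2 F c wl Fr (fun k => (2 : ℝ) ^ (dgV sn σ (x l) k * J))) ≤
      2 * (Kc * Real.log 2 + Real.log 9) := by
    refine (fq2_fq hpl (M := ⌈(2 : ℝ) ^ Kc⌉₊) (fun k => by positivity)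
      (fun k => by positivity) fun k => ?_).trans ?_
    · have h1 : (2 : ℝ) ^ g k / 2 ^ a ≤ 2 ^ Kc * 2 ^ (dgV sn σ (x l) k * J) := by
        have e1 : (2 : ℝ) ^ g k / 2 ^ a = 2 ^ ((g k : ℝ) - a) := by
          rw [Real.rpow_sub (by norm_num), Real.rpow_natCast, Real.rpow_natCast]
        rw [e1, ← Real.rpow_add (by norm_num)]
        refine Real.rpow_le_rpow_of_exponent_le (by norm_num) ?_
        have := hg2 k
        linarith
      exact h1.trans (mul_le_mul_of_nonneg_right (Nat.le_ceil _) (by positivity))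
    · push_cast
      have := log_ceil hK
      push_cast at this
      linarith
  have c5 : CH p (fq2 F c wl Fr (fun i => (2 : ℝ) ^ g i / 2 ^ a / 2 ^ q))
      (fq2 F c wl Fr (fun i => (2 : ℝ) ^ g i / 2 ^ a)) ≤ 0 := by
    refine le_of_eq (CH_eq_zero h0 fun ω ω' _ _ e => ?_)
    funext k
    rw [← fq2_div (fun i => (2 : ℝ) ^ g i / 2 ^ a) q ω k,
      ← fq2_div (fun i => (2 : ℝ) ^ g i / 2 ^ a) q ω' k, e]
  have c6 : CH p (fq2 F c wl Fr (fun k => (2 : ℝ) ^ (dgV sn σ (x j) k * J)))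
      (fq2 F c wl Fr (fun k => (2 : ℝ) ^ (dgV sn σ (x l) k * J))) ≤
      2 * (Kc * Real.log 2 + Real.log 9) := by
    refine (fq2_fq hpl (M := ⌈(2 : ℝ) ^ Kc⌉₊) (fun k => by positivity)
      (fun k => by positivity) fun k => ?_).trans ?_
    · have h1 : (2 : ℝ) ^ (dgV sn σ (x j) k * J) ≤ 2 ^ Kc * 2 ^ (dgV sn σ (x l) k * J) := by
        rw [← Real.rpow_add (by norm_num)]
        refine Real.rpow_le_rpow_of_exponent_le (by norm_num) ?_
        have := hjd k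
        linarith
      exact h1.trans (mul_le_mul_of_nonneg_right (Nat.le_ceil _) (by positivity))
    · push_cast
      have := log_ceil hK
      push_cast at this
      linarith
  -- the records
  have r3 : ∀ V : F.Ω → Fin 2 → ℤ, CH p V (fun ω => (cR F B (x j) ω,
      yQ ((range 1).image c) P₀ lam J F ω)) = CH p V (fun ω => (cR F B (x j) ω,
        (cR F B (x i) ω, yQ ((range 1).image c) P₀ lam J F ω))) := fun V => by
    refine le_antisymm (CH_mono_cond h0 fun ω ω' hω hω' e => ?_)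
      (CH_mono_cond h0 fun ω ω' _ _ e => ?_)
    · have e1 := (Prod.ext_iff.mp e)
      exact Prod.ext e1.1 (Prod.ext (cR_two hx hx1 hpB ω ω' hω hω' e1.1) e1.2)
    · have e1 := (Prod.ext_iff.mp e)
      exact Prod.ext e1.1 (Prod.ext_iff.mp e1.2).2
  have key := mi_num (q := p) h0 (fq2 F c wl Fr (fun i => (2 : ℝ) ^ g i / 2 ^ a))
    (fq2 F c wl Fr (fun i => (2 : ℝ) ^ g i / 2 ^ a / 2 ^ q))
    (fq2 F c wl Fr (fun k => (2 : ℝ) ^ (dgV sn σ (x l) k * J)))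
    (fq2 F c wl Fr (fun k => (2 : ℝ) ^ (dgV sn σ (x j) k * J)))
    (yQ ((range 1).image c) P₀ lam J F)
    (fun ω => (F.T ω, cYp c ⌊P₀ * J⌋₊ ⌊lam * J⌋₊ a (slam F a ω)))
    (cR F B (x i)) (cR F B (x j)) (nal := N i l * J) (nab := N i j * J) (nbl := N j l * J)
    (nbb := N j j * J) (h := η / 16 * J) c1 pt1 pt2 c4 c5 c6
    (by linarith [(abs_le.1 k1').2]) (by linarith [(abs_le.1 k2').1])
    (by rw [← r3]; linarith [(abs_le.1 k3').1]) (by rw [← r3]; linarith [(abs_le.1 k4').2])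
  have f1 : CH p (fq2 F c wl Fr (fun i => (2 : ℝ) ^ g i / 2 ^ a))
      (fun ω => (F.T ω, (wN (fun s k => fVs c wl Fr a s (Fin.castSucc k)) a g q (slam F a ω),
        vC (cYp c ⌊P₀ * J⌋₊ ⌊lam * J⌋₊ a) (cR1 F B (x i)) (slam F a ω)))) ≤
      CH p (fq2 F c wl Fr (fun i => (2 : ℝ) ^ g i / 2 ^ a))
      (fun ω => (fq2 F c wl Fr (fun i => (2 : ℝ) ^ g i / 2 ^ a / 2 ^ q) ω,
        ((F.T ω, cYp c ⌊P₀ * J⌋₊ ⌊lam * J⌋₊ a (slam F a ω)), cR F B (x i) ω))) :=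
    CH_mono_cond h0 fun ω ω' hω hω' e => by
      have e1 := Prod.ext_iff.mp e
      have e2 := Prod.ext_iff.mp e1.2
      have e3 := Prod.ext_iff.mp e2.2
      have e4 : cYp c ⌊P₀ * J⌋₊ ⌊lam * J⌋₊ a (slam F a ω) =
        cYp c ⌊P₀ * J⌋₊ ⌊lam * J⌋₊ a (slam F a ω') := e3.1
      have e5 : cR1 F B (x i) (slam F a ω) = cR1 F B (x i) (slam F a ω') := e3.2
      rw [hcr ω (hpB ω hω), hcr ω' (hpB ω' hω')] at e5
      have e6 : wN (fun s k => fVs c wl Fr a s (Fin.castSucc k)) a g q (slam F a ω) =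
        wN (fun s k => fVs c wl Fr a s (Fin.castSucc k)) a g q (slam F a ω') := e2.1
      rw [wN_fq2 hFr hwa haJ, wN_fq2 hFr hwa haJ] at e6
      exact Prod.ext e6 (Prod.ext (Prod.ext e1.1 e4) e5)
  have f2 : CH p (fq2 F c wl Fr (fun i => (2 : ℝ) ^ g i / 2 ^ a))
      (fun ω => (cR F B (x j) ω, (fq2 F c wl Fr (fun i => (2 : ℝ) ^ g i / 2 ^ a / 2 ^ q) ω,
        ((F.T ω, cYp c ⌊P₀ * J⌋₊ ⌊lam * J⌋₊ a (slam F a ω)), cR F B (x i) ω)))) ≤
      CH p (fq2 F c wl Fr (fun i => (2 : ℝ) ^ g i / 2 ^ a))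
        (wG (fun s k => fVs c wl Fr a s (Fin.castSucc k)) a g q
          (fun ω => (cR F B (x j) ω, cR F B (x i) ω))
          (cYp c ⌊P₀ * J⌋₊ ⌊lam * J⌋₊ a)) :=
    CH_mono_cond h0 fun ω ω' hω hω' e => by
      have e1 := Prod.ext_iff.mp e
      have e2 := Prod.ext_iff.mp e1.2
      have e3 := Prod.ext_iff.mp e2.2
      have e4 := Prod.ext_iff.mp e3.1
      refine Prod.ext (Prod.ext e1.1 e3.2) (Prod.ext e4.2 (Prod.ext e4.1 ?_))
      show wN (fun s k => fVs c wl Fr a s (Fin.castSucc k)) a g q (slam F a ω) =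
        wN (fun s k => fVs c wl Fr a s (Fin.castSucc k)) a g q (slam F a ω')
      rw [wN_fq2 hFr hwa haJ, wN_fq2 hFr hwa haJ]
      exact e2.1
  have hs := hN.sub i j l hij hjl hlL
  have hu := hN.up j j le_rfl (hjl.trans hlL)
  rw [sub_self, mul_zero, zero_add] at hu
  have hs' := mul_le_mul_of_nonneg_right hs hJ0
  have hu' := mul_le_mul_of_nonneg_right hu hJ0
  have hbig := hJ₀ J hJ
  rw [hD]
  have e9 : 2 * ((μ * J + Kc) * Real.log 2 + Real.log 9) + Real.log 15 + Real.log 15 +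
      2 * (Kc * Real.log 2 + Real.log 9) + 0 + 2 * (Kc * Real.log 2 + Real.log 9) =
      2 * μ * Real.log 2 * J + CC := by
    rw [hCC]
    ring
  rw [e9] at key
  have hηJ := mul_nonneg hη.le hJ0
  have hμJ := mul_nonneg (mul_nonneg hμ l2.le) hJ0
  linarith

end Pool.D124
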