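import Pool.Agent.H24.D1.FreD
import Pool.Agent.H64.D1.Lit

/-!
# The number from the tie

`nnl_of`: if the first digits of the velocities are few bits given the record on an event, then the
number of the velocities is small.
-/

set_option autoImplicit false

namespace Pool.D124

open Finset Real MvPolynomial
open Pool.Agent.H49.Ent Pool.Agent.H32.Dense
open Pool.STK hiding pr2
open Pool.KA Pool.KSAT Pool.K2S Pool.PB Pool.S6C
open Pool.GEN Pool.CHT Pool.LA91 Pool.RCD Pool.V0F Pool.AVG57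
open Pool.PRC54 (yQ)
open Pool.FVL91 (qVel cfl cfl_eq)
open Pool.T4G (wD wN wG)
open Pool.T4E (vC)
open Pool.T4M (CH_vec ful_step)
open Pool.T4N
open Pool.DIR16 (Pe_cc cond_cc)
open Pool.TIC (tG)
open Pool.D164 (NnlStmt wF pF cB)

variable {m J : ℕ}

/-- **The number from the tie.** -/
theorem nnl_of : NnlStmt := by
  classical
  intro m S c sn bl pl hpos P₀ lam ς θ xa xb xj hxa hab hb1 hbl hN μ η δ Kc hμ hη hδ hK
  obtain ⟨e₀, he₀, n1⟩ := nn_fq2 hpos hN (show 0 < η / 4 by positivity)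
  refine ⟨e₀, he₀, fun e he => ?_⟩
  have g1 := Pool.LBK.Bas.ev (n1 e he) hδ
  have hp : Bas S (fun _ F A => 0 < Pe F.p A) := ⟨1, one_pos, 0, fun J _ F A hA => hpos 1 J F A hA⟩
  have l2 : 0 < Real.log 2 := Real.log_pos (by norm_num)
  obtain ⟨J₀, hJ₀⟩ := Pool.CHT.big (2 * (Kc * Real.log 2 + Real.log 9) + Real.log 15)
    (show 0 < η / 4 by positivity)
  refine Bas.mono J₀ (g1.and hp) ?_
  rintro J hJ F B ⟨k1, hB⟩ Fr hFr g q hP hg1 E ε₁ hE hfew
  obtain ⟨a, ha⟩ : ∃ a : ℕ, a = ⌊xa * J⌋₊ := ⟨_, rfl⟩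
  obtain ⟨wl, hwl⟩ : ∃ wl : Fin 3 → ℕ, wl = wF bl J := ⟨_, rfl⟩
  obtain ⟨B', hB'⟩ : ∃ B' : F.Ω → Prop, B' = fun ω => B ω ∧ E ω := ⟨_, rfl⟩
  have hsub : Sub B' B := fun ω hω => by
    rw [hB'] at hω
    exact hω.1
  have hmass : Pe F.p B' = Pe F.p B * Pe (cB F B) E := by
    rw [hB']
    exact Pe_cc hB
  have hE0 : 0 < Pe (cB F B) E := hδ.trans_le hE
  have hPB : 0 < Pe F.p B' := by
    rw [hmass]
    positivity
  have hcc : Pool.Agent.H49.Ent.cond (cB F B) E True = Pool.Agent.H49.Ent.cond F.p B' True := by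
    rw [hB']
    exact cond_cc hB
  obtain ⟨p, hp'⟩ : ∃ p, p = Pool.Agent.H49.Ent.cond F.p B' True := ⟨_, rfl⟩
  have hpl : IsLaw p := by
    rw [hp']
    exact isLaw_cond F.isLaw hPB
  have h0 := hpl.nonneg
  have hpB : ∀ ω, 0 < p ω → B' ω := fun ω hω => by
    rw [hp'] at hω
    exact of_eq_true ((cond_pos_iff F.isLaw.nonneg B' True ω).1 hω).2
  have hJ0 : (0 : ℝ) ≤ J := Nat.cast_nonneg J
  have haJ : a ≤ J := by
    rw [ha]
    refine Nat.floor_le_of_le ?_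
    have := mul_le_mul_of_nonneg_right (hab.trans hb1) hJ0
    linarith
  have hwa : ∀ k, wl k ≤ a := fun k => by
    rw [hwl, ha]
    exact Nat.floor_le_floor (mul_le_mul_of_nonneg_right (hbl k k.2) hJ0)
  have k1' := k1 B' hsub (by
    rw [hmass, mul_comm]
    exact mul_le_mul_of_nonneg_left hE hB.le) Fr (hFr.sub hsub)
  rw [hcc] at hfew
  rw [← hwl] at hFr k1' hfew
  rw [← hp'] at k1' hfew
  rw [← ha] at hP hg1 hfew
  obtain ⟨-, pt2⟩ := path_two (c := c) hpl haJ hP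
  -- the velocities given the upper digits
  have c1 : CH p (fq2 F c wl Fr (fun k => (2 : ℝ) ^ (dgV sn ς xj k * J)))
      (fq2 F c wl Fr (fun i => (2 : ℝ) ^ g i / 2 ^ a / 2 ^ q)) ≤
      2 * ((μ * J + Kc) * Real.log 2 + Real.log 9) := by
    refine (fq2_fq hpl (M := ⌈(2 : ℝ) ^ (μ * J + Kc)⌉₊) (fun k => by positivity)
      (fun k => by positivity) fun k => ?_).trans ?_
    · have h1 : (2 : ℝ) ^ (dgV sn ς xj k * J) ≤
          2 ^ (μ * J + Kc) * (2 ^ g k / 2 ^ a / 2 ^ q) := by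
        have e1 : (2 : ℝ) ^ g k / 2 ^ a / 2 ^ q = 2 ^ ((g k : ℝ) - a - q) := by
          rw [Real.rpow_sub (by norm_num), Real.rpow_sub (by norm_num), Real.rpow_natCast,
            Real.rpow_natCast, Real.rpow_natCast]
        rw [e1, ← Real.rpow_add (by norm_num)]
        refine Real.rpow_le_rpow_of_exponent_le (by norm_num) ?_
        have := hg1 k
        linarith
      exact h1.trans (mul_le_mul_of_nonneg_right (Nat.le_ceil _) (by positivity))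
    · push_cast
      have := log_ceil (show 0 ≤ μ * J + Kc by positivity)
      push_cast at this
      linarith
  -- the digits
  have hD : (fun (ω : F.Ω) (i : Fin 2) => wD (fun s (k : Fin 2) => fVs c wl Fr a s k.castSucc)
      a g (slam F a ω) i / 2 ^ q) = fq2 F c wl Fr (fun i => (2 : ℝ) ^ g i / 2 ^ a / 2 ^ q) := by
    funext ω i
    rw [wD_fq2 hFr hwa haJ, fq2_div]
  rw [hD] at hfew
  obtain ⟨X, hX⟩ : ∃ X : F.Ω → Fin 2 → ℤ,
    X = fq2 F c wl Fr (fun i => (2 : ℝ) ^ g i / 2 ^ a / 2 ^ q) := ⟨_, rfl⟩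
  obtain ⟨Y, hY⟩ : ∃ Y : F.Ω → Fin 2 → ℤ,
    Y = fq2 F c wl Fr (fun k => (2 : ℝ) ^ (dgV sn ς xj k * J)) := ⟨_, rfl⟩
  obtain ⟨Z, hZ⟩ : ∃ Z : F.Ω → _, Z = fun ω => (cR F B' xb ω, yQ ((range 1).image c) P₀ lam J F ω) :=
    ⟨_, rfl⟩
  obtain ⟨R, hR⟩ : ∃ R : F.Ω → _, R = tG a (fun ω => (cR F B xb ω, cR F B xa ω))
    (cYp c ⌊P₀ * J⌋₊ ⌊lam * J⌋₊ a) := ⟨_, rfl⟩
  rw [← hX] at c1 hfew
  rw [← hY] at c1 k1'
  rw [← hZ] at k1'
  rw [← hR] at hfew
  have s1 := CH_le_add h0 Y X Z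
  have s2 : CH p Y (fun ω => (X ω, Z ω)) ≤ CH p Y X :=
    CH_mono_cond h0 fun ω ω' _ _ e => (Prod.ext_iff.mp e).1
  have s3 := CH_le_add h0 X R Z
  have s4 : CH p X (fun ω => (R ω, Z ω)) ≤ CH p X R :=
    CH_mono_cond h0 fun ω ω' _ _ e => (Prod.ext_iff.mp e).1
  have s5 : CH p R Z ≤ CH p (fun ω => (F.T ω, cYp c ⌊P₀ * J⌋₊ ⌊lam * J⌋₊ a (slam F a ω)))
      (yQ ((range 1).image c) P₀ lam J F) := by
    have t1 : CH p R Z ≤ CH p (fun ω => (F.T ω, cYp c ⌊P₀ * J⌋₊ ⌊lam * J⌋₊ a (slam F a ω))) Z := by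
      obtain ⟨U, hU⟩ : ∃ U : F.Ω → _, U = fun ω =>
        (F.T ω, cYp c ⌊P₀ * J⌋₊ ⌊lam * J⌋₊ a (slam F a ω)) := ⟨_, rfl⟩
      rw [← hU]
      have t2 := CH_le_add h0 R U Z
      have t3 : CH p R (fun ω => (U ω, Z ω)) ≤ 0 := by
        refine le_of_eq (CH_eq_zero h0 fun ω ω' hω hω' e => ?_)
        have e1 := Prod.ext_iff.mp e
        have e2 : U ω = U ω' := e1.1
        have e3 : Z ω = Z ω' := e1.2
        rw [hU] at e2
        rw [hZ] at e3
        have e4 := Prod.ext_iff.mp e2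
        have e5 : cR F B' xb ω = cR F B' xb ω' := (Prod.ext_iff.mp e3).1
        have e6 : cR F B xb ω = cR F B xb ω' := by
          have h1 : Det p (cR F B' xb) (cR F B xb) := det_cR ((cR_cl2 F B xb).sub hsub) hpB
          exact h1 ω ω' hω hω' e5
        have e7 : cR F B xa ω = cR F B xa ω' :=
          cR_two hab hb1 (fun ω hω => hsub ω (hpB ω hω)) ω ω' hω hω' e6
        rw [hR]
        exact Prod.ext (Prod.ext e6 e7) (Prod.ext e4.2 e4.1)
      linarith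
    refine t1.trans (CH_mono_cond h0 fun ω ω' _ _ e => ?_)
    rw [hZ] at e
    exact (Prod.ext_iff.mp e).2
  have hbig := hJ₀ J hJ
  have k2 := (abs_le.1 k1').1
  have hηJ := mul_nonneg hη.le hJ0
  have e9 : 2 * ((μ * J + Kc) * Real.log 2 + Real.log 9) + Real.log 15 =
      2 * μ * Real.log 2 * J + (2 * (Kc * Real.log 2 + Real.log 9) + Real.log 15) := by ring
  linarith

end Pool.D124
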